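import Mathlib
import Pool.Agent.H11.Pol.Defs
import Pool.Agent.H11.Pol.Main

open Pool.Agent.H11.Pol in
theorem Pool.Agent.Results.MP_1940b6_co.NoPolarity.result :
    ∃ (P : Type) (_ : PartialOrder P) (rank : P → ℤ), Finite P ∧
      IsPolyhedron P rank ∧ Equivelar rank 5 5 ∧ (∃ δ : P ≃ P, IsDuality δ) ∧
      ∀ δ : P ≃ P, IsDuality δ → ¬ ∀ F, δ (δ F) = F :=
  Pool.Agent.H11.Pol.main
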